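import Pool.Agent.H19.TM.Stm3

/-!
# Project TM3, modules F1 and E1 (helper40)
-/

set_option autoImplicit false

namespace Pool.Agent.H40.TM

open Finset Pool.Agent.Y862.GM Pool.Agent.H19.TM

lemma V_mem (P : Finset ℕ) (hP : ∀ q ∈ P, q.Prime) : 0 ≤ V P ∧ V P ≤ 1 := by
  constructor
  · exact Finset.prod_nonneg fun p _ => sq_nonneg _
  · refine Finset.prod_le_one (fun p _ => sq_nonneg _) fun p hp => ?_
    have h1 : (2 : ℝ) ≤ p := by exact_mod_cast (hP p hp).two_le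
    have h2 : 1 / (p : ℝ) ≤ 1 / 2 := one_div_le_one_div_of_le (by norm_num) h1
    have h3 : 0 ≤ 1 / (p : ℝ) := by positivity
    nlinarith

/-- the weighted mean of the relative deficiencies of the classes -/
lemma mean_Fd (hS : S_SIG) (hC : S_CNT) (P : Finset ℕ) (hP : ∀ q ∈ P, q.Prime) (p N : ℕ) (hp : 1 ≤ p)
    (hN : 1 ≤ N) :
    ∑ a ∈ range p, (cnt p a N : ℝ) / N * Fd P (cnt p a N) =
      1 - (∑ a ∈ range p, Wv P (cnt p a N)) / (sig P * N) := by
  have hs : 0 < sig P := lt_of_lt_of_le (by norm_num) (hS.1 P hP).1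
  have hN0 : (0 : ℝ) < N := by exact_mod_cast hN
  have h0 := (hS.2.2 P hP).1
  have h1 : ∀ a ∈ range p, (cnt p a N : ℝ) / N * Fd P (cnt p a N) =
      (cnt p a N : ℝ) / N - Wv P (cnt p a N) / (sig P * N) := by
    intro a _
    unfold Fd
    rcases Nat.eq_zero_or_pos (cnt p a N) with h | h
    · rw [h, h0]
      simp
    · have h2 : (0 : ℝ) < cnt p a N := by exact_mod_cast h
      field_simp
  rw [Finset.sum_congr rfl h1, Finset.sum_sub_distrib, ← Finset.sum_div, ← Finset.sum_div]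
  have h3 : ∑ a ∈ range p, (cnt p a N : ℝ) = N := by
    exact_mod_cast (hC p N hp).1
  rw [h3, div_self hN0.ne']

theorem t_F1 (hR : S_REC) (hC : S_CNT) (hV : S_VAR) (hS : S_SIG) : S_F1 := by
  obtain ⟨C, hC1, hVC⟩ := hV
  refine ⟨16 * C, by positivity, ?_⟩
  intro P hP p hp hpP N hN
  have hN0 : (0 : ℝ) < N := by exact_mod_cast hN
  have hp2 : (2 : ℝ) ≤ p := by exact_mod_cast hp.two_le
  have hp0 : (0 : ℝ) < p := by linarith
  have hP' : ∀ q ∈ insert p P, q.Prime := by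
    intro q hq
    rcases Finset.mem_insert.1 hq with rfl | h
    · exact hp
    · exact hP q h
  have hs : 1 / 2 ≤ sig P := (hS.1 P hP).1
  have hs' : 1 / 2 ≤ sig (insert p P) := (hS.1 _ hP').1
  have hss : sig (insert p P) = (1 - 1 / (p : ℝ) ^ 2) * sig P := by
    unfold sig
    rw [Finset.prod_insert hpP]
  have hs0 : 0 < sig P := by linarith
  have hs0' : 0 < sig (insert p P) := by linarith
  rw [mean_Fd hS hC P hP p N hp.one_le hN]
  have hrec := hR P hP p hp hpP N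
  have hcp := hC p N hp.one_le
  have hcp2 := hC (p ^ 2) N (Nat.one_le_pow _ _ hp.pos)
  set W := Wv P N with hW
  set S1 := ∑ a ∈ range p, Wv P (cnt p a N) with hS1
  set S2 := ∑ a ∈ range (p ^ 2), Wv P (cnt (p ^ 2) a N) with hS2
  have bW := hVC P hP N
  have bS1 : 0 ≤ S1 ∧ S1 ≤ C * N := by
    constructor
    · exact Finset.sum_nonneg fun a _ => (hVC P hP _).1
    · calc S1 ≤ ∑ a ∈ range p, C * (cnt p a N : ℝ) := Finset.sum_le_sum fun a _ => (hVC P hP _).2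
        _ = C * N := by
          rw [← Finset.mul_sum]
          have : ∑ a ∈ range p, (cnt p a N : ℝ) = N := by exact_mod_cast hcp.1
          rw [this]
  have bS2 : 0 ≤ S2 ∧ S2 ≤ C * N := by
    constructor
    · exact Finset.sum_nonneg fun a _ => (hVC P hP _).1
    · calc S2 ≤ ∑ a ∈ range (p ^ 2), C * (cnt (p ^ 2) a N : ℝ) :=
          Finset.sum_le_sum fun a _ => (hVC P hP _).2
        _ = C * N := by
          rw [← Finset.mul_sum]
          have : ∑ a ∈ range (p ^ 2), (cnt (p ^ 2) a N : ℝ) = N := by exact_mod_cast hcp2.1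
          rw [this]
  obtain ⟨-, -, ht1, ht1', -, -⟩ := hcp
  obtain ⟨-, -, ht2, ht2', -, -⟩ := hcp2
  obtain ⟨hV0, hV1⟩ := V_mem P hP
  set x : ℝ := 1 / (p : ℝ) with hx
  have hx0 : 0 < x := by positivity
  have hx1 : x ≤ 1 / 2 := one_div_le_one_div_of_le (by norm_num) hp2
  have hxp : x * p = 1 := by rw [hx]; field_simp
  -- the remainder
  set R : ℝ := V P ^ 2 * ((4 / (p : ℝ) - 4 / (p : ℝ) ^ 2) * th p N + th (p ^ 2) N / (p : ℝ) ^ 2)
    with hRdef
  have hRb : 0 ≤ R ∧ R ≤ 5 / 4 := by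
    have e1 : (4 / (p : ℝ) - 4 / (p : ℝ) ^ 2) = 4 * x - 4 * x ^ 2 := by rw [hx]; ring
    have e2 : th (p ^ 2) N / (p : ℝ) ^ 2 = x ^ 2 * th (p ^ 2) N := by rw [hx]; ring
    have a1 : 0 ≤ 4 * x - 4 * x ^ 2 := by nlinarith
    have a2 : (4 * x - 4 * x ^ 2) * th p N ≤ 1 := by
      calc (4 * x - 4 * x ^ 2) * th p N ≤ (4 * x) * ((p : ℝ) / 4) :=
            mul_le_mul (by nlinarith) ht1' ht1 (by positivity)
        _ = x * p := by ring
        _ = 1 := hxp
    have a3 : x ^ 2 * th (p ^ 2) N ≤ 1 / 4 := by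
      calc x ^ 2 * th (p ^ 2) N ≤ x ^ 2 * (((p ^ 2 : ℕ) : ℝ) / 4) :=
            mul_le_mul_of_nonneg_left ht2' (by positivity)
        _ = (x * p) ^ 2 / 4 := by push_cast; ring
        _ = 1 / 4 := by rw [hxp]; norm_num
    have a4 : 0 ≤ (4 * x - 4 * x ^ 2) * th p N + x ^ 2 * th (p ^ 2) N :=
      add_nonneg (mul_nonneg a1 ht1) (mul_nonneg (by positivity) ht2)
    have a5 : V P ^ 2 ≤ 1 := by nlinarith
    rw [hRdef, e1, e2]
    constructor
    · exact mul_nonneg (sq_nonneg _) a4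
    · calc V P ^ 2 * ((4 * x - 4 * x ^ 2) * th p N + x ^ 2 * th (p ^ 2) N)
          ≤ 1 * ((4 * x - 4 * x ^ 2) * th p N + x ^ 2 * th (p ^ 2) N) :=
            mul_le_mul_of_nonneg_right a5 a4
        _ ≤ 5 / 4 := by linarith
  have hxx : 1 - x ^ 2 ≠ 0 := by nlinarith
  have key : Fd (insert p P) N - ((1 - 4 / (p : ℝ)) * Fd P N + 4 / (p : ℝ) * (1 - S1 / (sig P * N))) =
      (W * (-3 * x ^ 2 + 4 * x ^ 3) + S1 * (4 * x ^ 2 - 4 * x ^ 3) - x ^ 2 * S2 - R) /
        (sig (insert p P) * N) := by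
    unfold Fd
    rw [hrec, ← hW]
    have e1 : (4 / (p : ℝ)) = 4 * x := by rw [hx]; ring
    have e2 : (4 / (p : ℝ) ^ 2) = 4 * x ^ 2 := by rw [hx]; ring
    have e3 : (2 / (p : ℝ) ^ 2) = 2 * x ^ 2 := by rw [hx]; ring
    have e4 : (1 / (p : ℝ) ^ 2) = x ^ 2 := by rw [hx]; ring
    have hN1 : (N : ℝ) ≠ 0 := hN0.ne'
    have hs1 : sig P ≠ 0 := hs0.ne'
    rw [hss, e4, e1, e2, e3]
    clear_value x W S1 S2 R
    field_simp
    ring
  rw [key, abs_div, abs_of_pos (mul_pos hs0' hN0), div_le_iff₀ (mul_pos hs0' hN0)]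
  have hnum : |W * (-3 * x ^ 2 + 4 * x ^ 3) + S1 * (4 * x ^ 2 - 4 * x ^ 3) - x ^ 2 * S2 - R| ≤
      8 * x ^ 2 * (C * N) + 5 / 4 := by
    have c1 : |-3 * x ^ 2 + 4 * x ^ 3| ≤ 3 * x ^ 2 := by
      rw [abs_le]
      constructor
      · have : 0 ≤ x ^ 3 := by positivity
        nlinarith
      · have : x ^ 3 ≤ x ^ 2 * (1 / 2) := by
          have : x ^ 3 = x ^ 2 * x := by ring
          rw [this]
          exact mul_le_mul_of_nonneg_left hx1 (by positivity)
        nlinarith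
    have c2 : |4 * x ^ 2 - 4 * x ^ 3| ≤ 4 * x ^ 2 := by
      rw [abs_le]
      have h3 : 0 ≤ x ^ 3 := by positivity
      have h4 : x ^ 3 ≤ x ^ 2 * (1 / 2) := by
        have : x ^ 3 = x ^ 2 * x := by ring
        rw [this]
        exact mul_le_mul_of_nonneg_left hx1 (by positivity)
      constructor <;> nlinarith
    have d1 : |W * (-3 * x ^ 2 + 4 * x ^ 3)| ≤ (C * N) * (3 * x ^ 2) := by
      rw [abs_mul, abs_of_nonneg bW.1]
      exact mul_le_mul bW.2 c1 (abs_nonneg _) (bW.1.trans bW.2)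
    have d2 : |S1 * (4 * x ^ 2 - 4 * x ^ 3)| ≤ (C * N) * (4 * x ^ 2) := by
      rw [abs_mul, abs_of_nonneg bS1.1]
      exact mul_le_mul bS1.2 c2 (abs_nonneg _) (bS1.1.trans bS1.2)
    have d3 : |x ^ 2 * S2| ≤ x ^ 2 * (C * N) := by
      rw [abs_mul, abs_of_nonneg bS2.1, abs_of_nonneg (by positivity : (0 : ℝ) ≤ x ^ 2)]
      exact mul_le_mul_of_nonneg_left bS2.2 (by positivity)
    have d4 : |R| ≤ 5 / 4 := by rw [abs_of_nonneg hRb.1]; exact hRb.2
    rw [abs_le] at d1 d2 d3 d4 ⊢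
    constructor <;> linarith
  refine hnum.trans ?_
  have e4 : (1 / (p : ℝ) ^ 2) = x ^ 2 := by rw [hx]; ring
  rw [e4]
  have f1 : 16 * C * (x ^ 2 + 1 / N) * (1 / 2 * N) ≤
      16 * C * (x ^ 2 + 1 / N) * (sig (insert p P) * N) := by
    refine mul_le_mul_of_nonneg_left ?_ (by positivity)
    exact mul_le_mul_of_nonneg_right hs' hN0.le
  refine le_trans ?_ f1
  have f2 : 16 * C * (x ^ 2 + 1 / N) * (1 / 2 * N) = 8 * x ^ 2 * (C * N) + 8 * C := by
    field_simp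
    ring
  rw [f2]
  linarith

theorem t_E1 (hR : S_REC) (hC : S_CNT) (hV : S_VAR) (hS : S_SIG) (hG : S_G3) : S_E1 := by
  obtain ⟨C1, hC1, hF⟩ := t_F1 hR hC hV hS
  obtain ⟨C3, hC3, hG⟩ := hG
  refine ⟨C1 + C3, by positivity, ?_⟩
  intro P hP p hp hpP hp5 N hpN e δ he1 he2 hδ
  have hN : 1 ≤ N := hp.one_le.trans hpN
  have hN0 : (0 : ℝ) < N := by exact_mod_cast hN
  have hp5' : (5 : ℝ) ≤ p := by exact_mod_cast hp5
  have hp0 : (0 : ℝ) < p := by linarith
  have h1 := hF P hP p hp hpP N hN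
  have h2 := hG P hP p hp hpP N
  have hcp := hC p N hp.one_le
  have hsum : ∑ a ∈ range p, (cnt p a N : ℝ) / N = 1 := by
    rw [← Finset.sum_div]
    have : ∑ a ∈ range p, (cnt p a N : ℝ) = N := by exact_mod_cast hcp.1
    rw [this, div_self hN0.ne']
  have hδ0 : 0 ≤ δ := (abs_nonneg _).trans hδ
  have hx : 4 / (p : ℝ) ≤ 4 / 5 := by
    rw [div_le_div_iff₀ hp0 (by norm_num)]
    linarith
  have hx0 : 0 ≤ 4 / (p : ℝ) := by positivity
  have h3 : |∑ a ∈ range p, (cnt p a N : ℝ) / N * Fd P (cnt p a N) - Gd P (N / p)| ≤ e + δ := by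
    have h4 : ∑ a ∈ range p, (cnt p a N : ℝ) / N * Fd P (cnt p a N) - Gd P (N / p) =
        ∑ a ∈ range p, (cnt p a N : ℝ) / N * (Fd P (cnt p a N) - Gd P (N / p)) := by
      simp only [mul_sub]
      rw [Finset.sum_sub_distrib, ← Finset.sum_mul, hsum, one_mul]
    rw [h4]
    calc |∑ a ∈ range p, (cnt p a N : ℝ) / N * (Fd P (cnt p a N) - Gd P (N / p))|
        ≤ ∑ a ∈ range p, |(cnt p a N : ℝ) / N * (Fd P (cnt p a N) - Gd P (N / p))| :=
          Finset.abs_sum_le_sum_abs _ _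
      _ ≤ ∑ a ∈ range p, (cnt p a N : ℝ) / N * (e + δ) := by
          refine Finset.sum_le_sum fun a ha => ?_
          have h5 : (0 : ℝ) ≤ (cnt p a N : ℝ) / N := by positivity
          rw [abs_mul, abs_of_nonneg h5]
          refine mul_le_mul_of_nonneg_left ?_ h5
          obtain ⟨h6, h7⟩ := hcp.2.1 a (Finset.mem_range.1 ha)
          rcases Nat.lt_or_ge (N / p) (cnt p a N) with h8 | h8
          · have h9 : cnt p a N = N / p + 1 := by omega
            rw [h9]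
            have h10 : Fd P (N / p + 1) - Gd P (N / p) =
                Ed P (N / p + 1) + (Gd P (N / p + 1) - Gd P (N / p)) := by
              unfold Ed
              ring
            rw [h10]
            exact (abs_add_le _ _).trans (add_le_add he2 hδ)
          · have h9 : cnt p a N = N / p := by omega
            rw [h9]
            have h10 : Fd P (N / p) - Gd P (N / p) = Ed P (N / p) := rfl
            rw [h10]
            linarith
      _ = e + δ := by rw [← Finset.sum_mul, hsum, one_mul]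
  set M := ∑ a ∈ range p, (cnt p a N : ℝ) / N * Fd P (cnt p a N) with hM
  have h5 : Ed (insert p P) N = (1 - 4 / (p : ℝ)) * Ed P N + 4 / (p : ℝ) * (M - Gd P (N / p)) +
      (Fd (insert p P) N - ((1 - 4 / (p : ℝ)) * Fd P N + 4 / (p : ℝ) * M)) -
      (Gd (insert p P) N - ((1 - 4 / (p : ℝ)) * Gd P N + 4 / (p : ℝ) * Gd P (N / p))) := by
    unfold Ed
    ring
  have h6 : |(1 - 4 / (p : ℝ)) * Ed P N| = (1 - 4 / (p : ℝ)) * |Ed P N| := by
    rw [abs_mul, abs_of_nonneg (by linarith)]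
  have h7 : |4 / (p : ℝ) * (M - Gd P (N / p))| ≤ 4 / (p : ℝ) * (e + δ) := by
    rw [abs_mul, abs_of_nonneg hx0]
    exact mul_le_mul_of_nonneg_left h3 hx0
  have h8 : C3 / (p : ℝ) ^ 2 ≤ C3 * (1 / (p : ℝ) ^ 2 + 1 / N) := by
    have : C3 * (1 / (p : ℝ) ^ 2 + 1 / N) = C3 / (p : ℝ) ^ 2 + C3 / N := by ring
    rw [this]
    have : 0 ≤ C3 / (N : ℝ) := by positivity
    linarith
  rw [h5]
  calc _ ≤ |(1 - 4 / (p : ℝ)) * Ed P N| + |4 / (p : ℝ) * (M - Gd P (N / p))| +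
      |Fd (insert p P) N - ((1 - 4 / (p : ℝ)) * Fd P N + 4 / (p : ℝ) * M)| +
      |Gd (insert p P) N - ((1 - 4 / (p : ℝ)) * Gd P N + 4 / (p : ℝ) * Gd P (N / p))| := by
        refine (abs_sub _ _).trans ?_
        gcongr
        exact abs_add_three _ _ _
    _ ≤ (1 - 4 / (p : ℝ)) * |Ed P N| + 4 / (p : ℝ) * (e + δ) + C1 * (1 / (p : ℝ) ^ 2 + 1 / N) +
        C3 * (1 / (p : ℝ) ^ 2 + 1 / N) := by
        rw [h6]
        gcongr
        exact h2.trans h8
    _ = _ := by ring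

end Pool.Agent.H40.TM
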