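import Pool.Agent.H93.TM.Gtwo

/-!
# Project TM3, module G3 (helper40)
-/

set_option autoImplicit false

namespace Pool.Agent.H40.TM

open Finset Pool.Agent.Y862.GM Pool.Agent.H19.TM Pool.Agent.H93.TM

theorem t_G3 (hG1 : S_G1) : S_G3 := by
  refine ⟨39, by norm_num, ?_⟩
  intro P hP p hp hpP N
  have hp2 : (2 : ℝ) ≤ p := by exact_mod_cast hp.two_le
  have hs := Gd_hasSum hp hG1 hP hpP N
  have hw := wt_sum hp
  have h1 := (hasSum_nat_add_iff' 2).2 hs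
  have h2 := (hasSum_nat_add_iff' 2).2 hw
  rw [Finset.sum_range_succ, Finset.sum_range_succ, Finset.sum_range_zero, zero_add] at h1 h2
  have hle : Gd (insert p P) N - (wt p 0 * Gd P (N / p ^ 0) + wt p 1 * Gd P (N / p ^ 1)) ≤
      1 - (wt p 0 + wt p 1) := by
    refine hasSum_le (fun k => ?_) h1 h2
    have := wt_nonneg hp (k + 2)
    have h3 := Gd_le hG1 P hP (N / p ^ (k + 2))
    nlinarith
  have hge : 0 ≤ Gd (insert p P) N - (wt p 0 * Gd P (N / p ^ 0) + wt p 1 * Gd P (N / p ^ 1)) :=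
    h1.nonneg fun k => mul_nonneg (wt_nonneg hp _) (Gd_nonneg _ _)
  rw [pow_zero, pow_one, Nat.div_one] at hle hge
  have e0 : wt p 0 = (1 - 1 / (p : ℝ)) ^ 4 := by simp [wt]
  have e1 : wt p 1 = (1 - 1 / (p : ℝ)) ^ 4 * (4 * (1 / (p : ℝ))) := by
    unfold wt
    have : (1 + 3).choose 3 = 4 := by decide
    rw [this, pow_one]
    push_cast
    ring
  rw [e0, e1] at hle hge
  have g0 := Gd_nonneg P N
  have g0' := Gd_le hG1 P hP N
  have g1 := Gd_nonneg P (N / p)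
  have g1' := Gd_le hG1 P hP (N / p)
  have f1 : 4 / (p : ℝ) = 4 * (1 / (p : ℝ)) := by ring
  have f2 : 39 / (p : ℝ) ^ 2 = 39 * (1 / (p : ℝ)) ^ 2 := by ring
  rw [f1, f2]
  have hx0 : 0 < 1 / (p : ℝ) := by positivity
  have hx1 : 1 / (p : ℝ) ≤ 1 / 2 := one_div_le_one_div_of_le (by norm_num) hp2
  set x : ℝ := 1 / (p : ℝ) with hx
  set A := Gd P N
  set B := Gd P (N / p)
  set G := Gd (insert p P) N
  clear_value x A B G
  have b1 : 1 - 4 * x ≤ (1 - x) ^ 4 := by nlinarith [sq_nonneg x, sq_nonneg (x * (x - 2))]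
  have b2 : (1 - x) ^ 4 ≤ 1 - 4 * x + 7 * x ^ 2 := by nlinarith [sq_nonneg x, sq_nonneg (x * x)]
  have b3 : (1 - x) ^ 4 ≤ 1 := pow_le_one₀ (by linarith) (by linarith)
  have c1 : 0 ≤ ((1 - x) ^ 4 - (1 - 4 * x)) * A ∧ ((1 - x) ^ 4 - (1 - 4 * x)) * A ≤ 7 * x ^ 2 := by
    constructor
    · exact mul_nonneg (by linarith) g0
    · calc ((1 - x) ^ 4 - (1 - 4 * x)) * A ≤ (7 * x ^ 2) * 1 :=
          mul_le_mul (by linarith) g0' g0 (by positivity)
        _ = _ := mul_one _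
  have c2 : 0 ≤ (4 * x - (1 - x) ^ 4 * (4 * x)) * B ∧ (4 * x - (1 - x) ^ 4 * (4 * x)) * B ≤ 16 * x ^ 2 := by
    constructor
    · exact mul_nonneg (by nlinarith) g1
    · calc (4 * x - (1 - x) ^ 4 * (4 * x)) * B ≤ (16 * x ^ 2) * 1 :=
          mul_le_mul (by nlinarith) g1' g1 (by positivity)
        _ = _ := mul_one _
  have c3 : 1 - ((1 - x) ^ 4 + (1 - x) ^ 4 * (4 * x)) ≤ 16 * x ^ 2 := by nlinarith
  rw [abs_le]
  constructor <;> nlinarith [c1.1, c1.2, c2.1, c2.2]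

end Pool.Agent.H40.TM
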