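import Pool.Agent.H19.TM.Stm2

/-!
Module SIG of project TM2: the mean value of the square.
-/

set_option autoImplicit false

namespace Pool.Agent.H40.TM

open Finset Filter Topology Pool.Agent.Y862.GM Pool.Agent.H19.TM

lemma factor_bounds {n : ℕ} (hn : 2 ≤ n) : 0 < 1 - 1 / (n : ℝ) ^ 2 ∧ 1 - 1 / (n : ℝ) ^ 2 ≤ 1 := by
  have h : (2 : ℝ) ≤ n := by exact_mod_cast hn
  have h1 : 1 / (n : ℝ) ^ 2 ≤ 1 / 4 := by
    apply one_div_le_one_div_of_le (by norm_num)
    nlinarith
  have h2 : 0 < 1 / (n : ℝ) ^ 2 := by positivity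
  constructor <;> linarith

lemma prod_Icc (N : ℕ) : ∏ n ∈ Icc 2 (N + 1), (1 - 1 / (n : ℝ) ^ 2) =
    ((N : ℝ) + 2) / (2 * ((N : ℝ) + 1)) := by
  induction N with
  | zero => simp
  | succ N ih =>
    rw [Finset.prod_Icc_succ_top (by omega), ih]
    push_cast
    have h1 : (N : ℝ) + 1 ≠ 0 := by positivity
    have h2 : (N : ℝ) + 1 + 1 ≠ 0 := by positivity
    field_simp
    ring

lemma half_le_sig (P : Finset ℕ) (hP : ∀ p ∈ P, p.Prime) : 1 / 2 ≤ sig P ∧ sig P ≤ 1 := by
  constructor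
  · have hsub : P ⊆ Icc 2 (P.sup id + 1) := by
      intro p hp
      rw [mem_Icc]
      exact ⟨(hP p hp).two_le, (Finset.le_sup (f := id) hp).trans (Nat.le_succ _)⟩
    have h1 : ∏ n ∈ Icc 2 (P.sup id + 1), (1 - 1 / (n : ℝ) ^ 2) ≤ sig P := by
      rw [sig, ← Finset.prod_sdiff hsub]
      apply mul_le_of_le_one_left
      · exact Finset.prod_nonneg fun p hp => (factor_bounds (hP p hp).two_le).1.le
      · apply Finset.prod_le_one
        · intro n hn
          have := (mem_Icc.mp (mem_sdiff.mp hn).1).1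
          exact (factor_bounds this).1.le
        · intro n hn
          have := (mem_Icc.mp (mem_sdiff.mp hn).1).1
          exact (factor_bounds this).2
    refine le_trans ?_ h1
    rw [prod_Icc, div_le_div_iff₀ (by norm_num) (by positivity)]
    linarith
  · exact Finset.prod_le_one (fun p hp => (factor_bounds (hP p hp).two_le).1.le)
      (fun p hp => (factor_bounds (hP p hp).two_le).2)

lemma sig_tendsto : Tendsto (fun y : ℕ => sig (pr y)) atTop (𝓝 (6 / Real.pi ^ 2)) := by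
  have h1 := riemannZeta_eulerProduct (s := 2) (by norm_num)
  rw [riemannZeta_two] at h1
  have h2 := (h1.comp (tendsto_add_atTop_nat 1)).norm
  have hpi : ‖(Real.pi : ℂ) ^ 2 / 6‖ = Real.pi ^ 2 / 6 := by
    rw [norm_div, norm_pow, Complex.norm_real, Real.norm_of_nonneg Real.pi_pos.le]
    norm_num
  rw [hpi] at h2
  have h3 : ∀ y : ℕ, ‖∏ p ∈ Nat.primesBelow (y + 1), (1 - (p : ℂ) ^ (-(2 : ℂ)))⁻¹‖ =
      (sig (pr y))⁻¹ := by
    intro y
    rw [norm_prod, sig, ← Finset.prod_inv_distrib]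
    have hset : Nat.primesBelow (y + 1) = pr y := rfl
    rw [hset]
    refine Finset.prod_congr rfl fun p hp => ?_
    have hp2 : 2 ≤ p := (mem_filter.mp hp).2.two_le
    have e : (1 - (p : ℂ) ^ (-(2 : ℂ))) = ((1 - 1 / (p : ℝ) ^ 2 : ℝ) : ℂ) := by
      have : (p : ℂ) ^ (-(2 : ℂ)) = ((p : ℂ) ^ 2)⁻¹ := by
        rw [Complex.cpow_neg]
        congr 1
        exact_mod_cast Complex.cpow_natCast (p : ℂ) 2
      rw [this]
      push_cast
      rw [one_div]
    rw [e, norm_inv, Complex.norm_real, Real.norm_of_nonneg (factor_bounds hp2).1.le]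
  have h4 : Tendsto (fun y : ℕ => (sig (pr y))⁻¹) atTop (𝓝 (Real.pi ^ 2 / 6)) := by
    refine h2.congr fun y => ?_
    exact h3 y
  have h5 := h4.inv₀ (by positivity)
  simpa only [inv_inv, inv_div] using h5

theorem t_SIG (hC : S_COV) : S_SIG := by
  refine ⟨half_le_sig, ?_, ?_⟩
  · intro ε hε
    have hpos : 0 < 6 / Real.pi ^ 2 := by positivity
    have h1 : 6 / Real.pi ^ 2 < (1 + ε) * (6 / Real.pi ^ 2) := by nlinarith
    obtain ⟨A, hA⟩ := eventually_atTop.mp (sig_tendsto.eventually (Iic_mem_nhds h1))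
    exact ⟨A, fun y hy => hA y hy⟩
  · intro P hP
    have h0 := hC P hP 0
    have h1 := hC P hP 1
    constructor
    · rw [h0]; simp
    · rw [h1]
      have hk : ∀ q ∈ P, kap q 0 = 1 - 1 / (q : ℝ) ^ 2 := by
        intro q hq
        simp only [kap, dvd_zero, if_true]
        ring
      simp only [Finset.sum_range_one, Nat.dist_self, Nat.cast_one, one_pow, one_mul]
      rw [Finset.prod_congr rfl hk, sig]

end Pool.Agent.H40.TM
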